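import Pool.Agent.Run7.h902.CwAll

/-!
# MP_e2821c_ag: the Beilinson-Soulé vanishing is a question on configurations of points in the plane

Let `G b m X` be Bloch's higher Chow groups of separated schemes `X` of finite type over a field `k`
(cycles of dimension `b + m` on `X × Δ^m`), with the known properties in `ChowAll`: localization,
vanishing above the dimension, `CH^0(X, m) = 0` for `m > 0`, continuity. For smooth `X`
of dimension `e` one has `H^i(X, ℤ(n)) = CH^n(X, 2 n - i) = G (e - n) (2 n - i) X`. The Zariski
cohomology sheaves of `ℤ(n)` vanish in all degrees `i ≤ 0` over `k` if and only if these groups vanish
for all smooth `X` and `i ≤ 0` (hypercohomology spectral sequence).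

A configuration consists of the points `(1:0:0)`, `(0:1:0)`, `(0:0:1)`, `(1:1:1)` and of finitely many
further points of the projective plane, each in a given Schubert cell (`(1:x:y)`, `(0:1:y)` or
`(0:0:1)`). `Spec A` is a moduli space (`IsModuli`) if it represents the functor of the configurations
for which the triples in `D` are collinear and all other triples are not collinear. So these
schemes are the realization spaces, modulo `PGL_3`, of the matroids of rank `3` with a frame
(`FrameModuli`).

Theorem: the vanishing in the weights `n ≤ w` holds for all smooth integral schemes over all perfect
fields if and only if it holds for the smooth integral realization spaces over the prime fields.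

Proof. Every algebra `A` of finite presentation over a prime field is determined by a finite subset `S`
containing `0`, `1` and the sums and products which lie in `S` (`CuRing`), and the values of the elements
of `S` are coded by points such that sums and products are collinearities and all auxiliary points are
determined (`CuGad`). So `Spec A` is ISOMORPHIC to a scheme of configurations with some prescribed
collinear triples, and it is stratified by realization spaces. A domain has a localization which is
smooth and is one of them, and Noetherian induction (`CuTot`) needs nothing but
`CH Z → CH X → CH U` being exact in the middle. The vanishing for a smooth scheme of dimension `e` in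
codimension `n` implies what is needed in larger dimensions, because the weights and the degrees
decrease by `c` and `2 c` on strata of codimension `c`.
-/

set_option autoImplicit false

open CategoryTheory AlgebraicGeometry Pool.Agent.Y116.UV Pool.Agent.Run7.h902

namespace Pool.Agent.Results.MP_e2821c_ag.ConfigurationsOverPrimeFields

/-- **Theorem.** For every `w` the following are equivalent: for all perfect fields `k`, all smooth
integral schemes `X` over `k`, `1 ≤ n ≤ w` and `i ≤ 0` the group `H^i(X, ℤ(n)) = CH^n(X, 2 n - i)`
vanishes; the same for the prime fields `k` and for the smooth integral moduli spaces of
configurations. -/
theorem result (F : Cw.ChowAll) (w : ℕ) : F.Q1 w ↔ F.Moduli w :=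
  Cw.bs_all F w

end Pool.Agent.Results.MP_e2821c_ag.ConfigurationsOverPrimeFields
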