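import Pool.Agent.Run7.h902.CwBS

/-!
# MP_e2821c_ag: the Beilinson-Soulé vanishing over a perfect field, dimension by dimension

The notation is as in `ConfigurationsOverPrimeFields`. Now the base is an arbitrary perfect field `k`, and
the configurations contain finitely many fixed points with arbitrary coordinates in `k`
(`FixedModuli`: the points labelled by `α` have the coordinates `fix`, those labelled by `β` move
in the cells given by `τ`).

Theorem: for all `w` and `d` the vanishing `H^i(X, ℤ(n)) = 0` for `i ≤ 0`, `1 ≤ n ≤ w` and all smooth
integral schemes `X` over `k` of dimension at most `d` is equivalent to the vanishing for the smooth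
integral moduli spaces of configurations over `k` of dimension at most `d`; it is also equivalent
to `CH_(e - n)(X, m) = 0` for `1 ≤ n ≤ w`, `m ≥ 2 n` and all (singular, reducible) schemes `X` of finite
type with `dim X ≤ e`, `dim X ≤ d`.
-/

set_option autoImplicit false

open CategoryTheory AlgebraicGeometry Pool.Agent.Y116.UV Pool.Agent.Run7.h902

namespace Pool.Agent.Results.MP_e2821c_ag.DimensionByDimension

/-- **Theorem.** Let `k` be a perfect field and let `G b m X` be groups with the known properties of
Bloch's higher Chow groups. For all `w` and `d` the following are equivalent:
(1) the Beilinson-Soulé vanishing in the weights `1 ≤ n ≤ w` for all smooth integral schemes over `k` of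
dimension at most `d`;
(2) `G (e - n) m X = 0` for `1 ≤ n ≤ w`, `m ≥ 2 n`, all schemes `X` of finite type over `k` of
dimension at most `d` and all `e ≥ dim X`;
(3) the Beilinson-Soulé vanishing in the weights `1 ≤ n ≤ w` for the smooth integral moduli spaces over
`k` of configurations of points in the plane of dimension at most `d`. -/
theorem result {k : Type} [Field k] [PerfectField k] (C : Cw.Chow k) (w d : ℕ) :
    List.TFAE [
      ∀ X : Sch k, FT True X → IsIntegral X.left → Smooth X.hom → topologicalKrullDim X.left ≤ d →
        C.BS w X,
      ∀ X : Sch k, FT True X → topologicalKrullDim X.left ≤ d → C.BSAll w X,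
      Cw.ForSmoothDim k d (C.BS w)] :=
  Cw.bs_dim C w d

end Pool.Agent.Results.MP_e2821c_ag.DimensionByDimension
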